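import Pool.Agent.H15.IX.TC

/-!
# Row CNJ of idx_modules: valuation rings over the same valuation ring are conjugate
-/

set_option autoImplicit false

open Finset Pool.Agent.H15.IX
open scoped Pointwise

namespace Pool.Agent.H67.IX

universe u

section

variable {F Ω : Type u} [Field F] [Field Ω] [Algebra F Ω]

/-- a unit of the first valuation ring built from an equation of `x` -/
theorem exists_y (x : Ω) (hx : IsIntegral F x) {Γ : Type u} [LinearOrderedCommGroupWithZero Γ]
    (w : Valuation Ω Γ) (hwx : w x ≤ 1) :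
    ∃ (n j : ℕ) (c : ℕ → F), j ≤ n ∧ (∀ i, w (algebraMap F Ω (c i)) ≤ 1) ∧
      ∑ i ∈ range (n + 1), algebraMap F Ω (c i) * x ^ i = 0 ∧
      w (∑ i ∈ Ico j (n + 1), algebraMap F Ω (c i) * x ^ (i - j)) = 1 := by
  classical
  set f := minpoly F x with hf
  have hmon : f.Monic := minpoly.monic hx
  set n := f.natDegree with hn
  obtain ⟨k, hk, hmax⟩ := Finset.exists_max_image (range (n + 1))
    (fun i => w (algebraMap F Ω (f.coeff i))) ⟨0, by simp⟩
  have hn1 : w (algebraMap F Ω (f.coeff n)) = 1 := by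
    rw [hn, hmon.coeff_natDegree, map_one, map_one]
  have hk1 : 1 ≤ w (algebraMap F Ω (f.coeff k)) := by
    rw [← hn1]
    exact hmax n (by simp)
  have hk0 : f.coeff k ≠ 0 := by
    intro h
    rw [h, map_zero, map_zero] at hk1
    exact absurd hk1 (not_le.2 zero_lt_one)
  have hmax' : ∀ i, w (algebraMap F Ω (f.coeff i)) ≤ w (algebraMap F Ω (f.coeff k)) := by
    intro i
    rcases le_or_gt i n with h | h
    · exact hmax i (by simp; omega)
    · rw [Polynomial.coeff_eq_zero_of_natDegree_lt h, map_zero, map_zero]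
      exact zero_le
  set c : ℕ → F := fun i => f.coeff i / f.coeff k with hc
  have hc1 : ∀ i, w (algebraMap F Ω (c i)) ≤ 1 := by
    intro i
    rw [hc]
    simp only
    rw [map_div₀, map_div₀]
    exact div_le_one_of_le₀ (hmax' i) zero_le
  have hck : w (algebraMap F Ω (c k)) = 1 := by
    rw [hc]
    simp only
    rw [div_self hk0, map_one, map_one]
  obtain ⟨j, hj, hjmax⟩ := Finset.exists_max_image
    ((range (n + 1)).filter fun i => w (algebraMap F Ω (c i)) = 1) id
    ⟨k, mem_filter.2 ⟨hk, hck⟩⟩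
  rw [mem_filter, mem_range] at hj
  refine ⟨n, j, c, by omega, hc1, ?_, ?_⟩
  · have h1 : Polynomial.aeval x f = 0 := minpoly.aeval F x
    rw [Polynomial.aeval_eq_sum_range, ← hn] at h1
    have h2 : ∑ i ∈ range (n + 1), algebraMap F Ω (c i) * x ^ i =
        (algebraMap F Ω (f.coeff k))⁻¹ * ∑ i ∈ range (n + 1), f.coeff i • x ^ i := by
      rw [Finset.mul_sum]
      apply Finset.sum_congr rfl
      intro i _
      rw [hc]
      simp only
      rw [map_div₀, Algebra.smul_def]
      ring
    rw [h2, h1, mul_zero]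
  · rw [Finset.sum_eq_sum_Ico_succ_bot (by omega : j < n + 1), Nat.sub_self, pow_zero, mul_one]
    have h1 : w (∑ i ∈ Ico (j + 1) (n + 1), algebraMap F Ω (c i) * x ^ (i - j)) < 1 := by
      apply Valuation.map_sum_lt _ one_ne_zero
      intro i hi
      rw [mem_Ico] at hi
      have h2 : w (algebraMap F Ω (c i)) < 1 := by
        refine lt_of_le_of_ne (hc1 i) fun h => ?_
        have h3 := hjmax i (mem_filter.2 ⟨mem_range.2 hi.2, h⟩)
        simp only [id_eq] at h3
        omega
      rw [map_mul, map_pow]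
      exact mul_lt_one_of_lt_of_le h2 (pow_le_one' hwx _)
    rw [Valuation.map_add_eq_of_lt_left _ (by rw [hj.2]; exact h1)]
    exact hj.2

/-- the other expression for `y` -/
theorem y_eq {x : Ω} (hx : x ≠ 0) {n j : ℕ} (hj : j ≤ n) (c : ℕ → F)
    (h0 : ∑ i ∈ range (n + 1), algebraMap F Ω (c i) * x ^ i = 0) :
    ∑ i ∈ Ico j (n + 1), algebraMap F Ω (c i) * x ^ (i - j) =
      -∑ i ∈ range j, algebraMap F Ω (c i) * x⁻¹ ^ (j - i) := by
  have h1 : ∑ i ∈ range (n + 1), algebraMap F Ω (c i) * x ^ i * x⁻¹ ^ j = 0 := by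
    rw [← Finset.sum_mul, h0, zero_mul]
  rw [Finset.range_eq_Ico, ← Finset.sum_Ico_consecutive _ (Nat.zero_le j) (by omega : j ≤ n + 1)]
    at h1
  have h2 : ∑ i ∈ Ico 0 j, algebraMap F Ω (c i) * x ^ i * x⁻¹ ^ j =
      ∑ i ∈ range j, algebraMap F Ω (c i) * x⁻¹ ^ (j - i) := by
    rw [← Finset.range_eq_Ico]
    apply Finset.sum_congr rfl
    intro i hi
    rw [mem_range] at hi
    have h3 : x⁻¹ ^ j = x⁻¹ ^ i * x⁻¹ ^ (j - i) := by
      rw [← pow_add]
      congr 1
      omega
    rw [h3, mul_assoc, ← mul_assoc (x ^ i), ← mul_pow, mul_inv_cancel₀ hx, one_pow, one_mul]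
  have h3 : ∑ i ∈ Ico j (n + 1), algebraMap F Ω (c i) * x ^ i * x⁻¹ ^ j =
      ∑ i ∈ Ico j (n + 1), algebraMap F Ω (c i) * x ^ (i - j) := by
    apply Finset.sum_congr rfl
    intro i hi
    rw [mem_Ico] at hi
    have h3 : x ^ i = x ^ (i - j) * x ^ j := by
      rw [← pow_add]
      congr 1
      omega
    rw [h3, mul_assoc, mul_assoc, ← mul_pow, mul_inv_cancel₀ hx, one_pow, mul_one]
  rw [h2, h3] at h1
  exact eq_neg_of_add_eq_zero_right h1

/-- elements of all valuation rings over `A` are integral -/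
theorem integral_of_val (A : ValuationSubring F) (y : Ω)
    (h : ∀ V : ValuationSubring Ω, (∀ a ∈ A, algebraMap F Ω a ∈ V) → y ∈ V) :
    IsIntegral A y := by
  by_contra hy
  have hy' : y ∉ (integralClosure A Ω).toSubring := hy
  have : IsIntegrallyClosedIn (integralClosure A Ω).toSubring Ω :=
    inferInstanceAs (IsIntegrallyClosedIn (integralClosure A Ω) Ω)
  obtain ⟨V, hV, hyV⟩ := Subring.exists_le_valuationSubring_of_isIntegrallyClosedIn hy'
  apply hyV
  apply h V
  intro a ha
  apply hV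
  exact isIntegral_algebraMap (R := A) (x := (⟨a, ha⟩ : A))

/-- comparison of two valuations with the same centre -/
theorem val_le (A : ValuationSubring F) [Algebra.IsAlgebraic F Ω] {Γ₁ Γ₂ : Type u}
    [LinearOrderedCommGroupWithZero Γ₁] [LinearOrderedCommGroupWithZero Γ₂]
    (w₁ : Valuation Ω Γ₁) (w₂ : Valuation Ω Γ₂)
    (h1 : ∀ a : F, w₁ (algebraMap F Ω a) ≤ 1 → a ∈ A)
    (h2 : ∀ a ∈ A, w₂ (algebraMap F Ω a) ≤ 1)
    (hc : ∀ b : Ω, IsIntegral A b → w₂ b < 1 → w₁ b < 1) (x : Ω) (hx : w₁ x ≤ 1) :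
    w₂ x ≤ 1 := by
  by_contra hx2
  push Not at hx2
  have hx0 : x ≠ 0 := by
    rintro rfl
    rw [map_zero] at hx2
    exact absurd hx2 (not_lt.2 zero_le)
  obtain ⟨n, j, c, hj, hc1, h0, hy⟩ :=
    exists_y x (Algebra.IsAlgebraic.isAlgebraic (R := F) x).isIntegral w₁ hx
  have hcA : ∀ i, c i ∈ A := fun i => h1 _ (hc1 i)
  have hye := y_eq hx0 hj c h0
  have hyB : IsIntegral A (∑ i ∈ Ico j (n + 1), algebraMap F Ω (c i) * x ^ (i - j)) := by
    apply integral_of_val
    intro V hV
    rcases V.mem_or_inv_mem x with h | h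
    · exact sum_mem fun i _ => mul_mem (hV _ (hcA i)) (pow_mem h _)
    · rw [hye]
      exact neg_mem (sum_mem fun i _ => mul_mem (hV _ (hcA i)) (pow_mem h _))
  have hy2 : w₂ (∑ i ∈ Ico j (n + 1), algebraMap F Ω (c i) * x ^ (i - j)) < 1 := by
    rw [hye, Valuation.map_neg]
    apply Valuation.map_sum_lt _ one_ne_zero
    intro i hi
    rw [mem_range] at hi
    rw [map_mul, map_pow, map_inv₀, mul_comm]
    have h5 : (w₂ x)⁻¹ < 1 := inv_lt_one_of_one_lt₀ hx2
    exact mul_lt_one_of_lt_of_le (pow_lt_one₀ zero_le h5 (by omega)) (h2 _ (hcA i))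
  have := hc _ hyB hy2
  rw [hy] at this
  exact lt_irrefl _ this

/-- the ideal of the elements of value less than one -/
def cen (A : ValuationSubring F) (O : ValuationSubring Ω)
    (hO : ∀ b : Ω, IsIntegral A b → O.valuation b ≤ 1) : Ideal (integralClosure A Ω) where
  carrier := {b | O.valuation (b : Ω) < 1}
  add_mem' := by
    intro a b ha hb
    exact lt_of_le_of_lt (Valuation.map_add _ _ _)
      (max_lt (show O.valuation (a : Ω) < 1 from ha) (show O.valuation (b : Ω) < 1 from hb))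
  zero_mem' := by
    show O.valuation ((0 : integralClosure A Ω) : Ω) < 1
    rw [ZeroMemClass.coe_zero, map_zero]
    exact zero_lt_one
  smul_mem' := by
    intro c x hx
    show O.valuation ((c • x : integralClosure A Ω) : Ω) < 1
    rw [smul_eq_mul, MulMemClass.coe_mul, map_mul, mul_comm]
    exact mul_lt_one_of_lt_of_le hx (hO _ c.2)

theorem cen_prime (A : ValuationSubring F) (O : ValuationSubring Ω)
    (hO : ∀ b : Ω, IsIntegral A b → O.valuation b ≤ 1) : (cen A O hO).IsPrime := by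
  constructor
  · rw [Ideal.ne_top_iff_one]
    show ¬ O.valuation ((1 : integralClosure A Ω) : Ω) < 1
    rw [OneMemClass.coe_one, map_one]
    exact lt_irrefl _
  · intro a b hab
    by_contra h
    push Not at h
    have ha : O.valuation (a : Ω) = 1 := le_antisymm (hO _ a.2) (not_lt.1 h.1)
    have hb : O.valuation (b : Ω) = 1 := le_antisymm (hO _ b.2) (not_lt.1 h.2)
    have h2 : O.valuation ((a * b : integralClosure A Ω) : Ω) < 1 := hab
    rw [MulMemClass.coe_mul, map_mul, ha, hb, one_mul] at h2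
    exact lt_irrefl _ h2

theorem int_le (O : ValuationSubring Ω) (b : Ω)
    (hb : IsIntegral (O.comap (algebraMap F Ω)) b) : O.valuation b ≤ 1 := by
  rw [ValuationSubring.valuation_le_one_iff]
  have h1 : IsIntegral O b := by
    obtain ⟨f, hf, hfb⟩ := hb
    let φ : (O.comap (algebraMap F Ω)) →+* O :=
      { toFun := fun a => ⟨algebraMap F Ω a.1, a.2⟩
        map_one' := Subtype.ext (by simp)
        map_mul' := fun a b => Subtype.ext (by simp)
        map_zero' := Subtype.ext (by simp)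
        map_add' := fun a b => Subtype.ext (by simp) }
    refine ⟨f.map φ, hf.map φ, ?_⟩
    rw [Polynomial.eval₂_map]
    exact hfb
  obtain ⟨y, hy⟩ := IsIntegrallyClosed.isIntegral_iff.1 h1
  rw [← hy]
  exact y.2

end

theorem pf_CNJ : T_CNJ.{u} := by
  intro F Ω _ _ _ _ _ _ O₁ O₂ hO
  have : IsAlgClosure F Ω := ⟨inferInstance, inferInstance⟩
  have : Normal F Ω := IsAlgClosure.normal F Ω
  have : IsGalois F Ω := {}
  set A : ValuationSubring F := O₁.comap (algebraMap F Ω) with hA
  have hO1 : ∀ b : Ω, IsIntegral A b → O₁.valuation b ≤ 1 := int_le O₁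
  have hO2 : ∀ b : Ω, IsIntegral A b → O₂.valuation b ≤ 1 := by
    rw [hO]
    exact int_le O₂
  have hA1 : ∀ a : F, a ∈ A ↔ O₁.valuation (algebraMap F Ω a) ≤ 1 := by
    intro a
    rw [ValuationSubring.valuation_le_one_iff]
    exact Iff.rfl
  have hA2 : ∀ a : F, a ∈ A ↔ O₂.valuation (algebraMap F Ω a) ≤ 1 := by
    intro a
    rw [hO, ValuationSubring.valuation_le_one_iff]
    exact Iff.rfl
  -- the action
  have hfr : IsFractionRing (integralClosure A Ω) Ω := by
    have : Algebra.IsAlgebraic A Ω := (IsFractionRing.comap_isAlgebraic_iff (K := F)).2 inferInstance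
    exact integralClosure.isFractionRing_of_algebraic (fun x hx => by
      have h1 : algebraMap F Ω (x : F) = 0 := hx
      exact Subtype.ext ((map_eq_zero _).1 h1))
  let act := IsIntegralClosure.MulSemiringAction A F Ω (integralClosure A Ω)
  have hact : ∀ (g : Ω ≃ₐ[F] Ω) (b : integralClosure A Ω), ((g • b : integralClosure A Ω) : Ω) =
      g (b : Ω) := fun g b => algebraMap_galRestrict_apply A g b
  let : TopologicalSpace (integralClosure A Ω) := ⊥
  have : DiscreteTopology (integralClosure A Ω) := ⟨rfl⟩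
  have hcs : ContinuousSMul (Ω ≃ₐ[F] Ω) (integralClosure A Ω) := by
    refine (continuousSMul_iff_stabilizer_isOpen (M := (Ω ≃ₐ[F] Ω))
      (X := integralClosure A Ω)).2 fun b => ?_
    have h1 := stabilizer_isOpen_of_isIntegral (K := F) (b : Ω)
    have h2 : (MulAction.stabilizer (Ω ≃ₐ[F] Ω) b : Set (Ω ≃ₐ[F] Ω)) =
        (MulAction.stabilizer (Ω ≃ₐ[F] Ω) (b : Ω) : Set (Ω ≃ₐ[F] Ω)) := by
      ext g
      simp only [SetLike.mem_coe, MulAction.mem_stabilizer_iff]
      rw [Subtype.ext_iff, hact]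
      exact Iff.rfl
    rw [h2]
    exact h1
  have hsc : SMulCommClass (Ω ≃ₐ[F] Ω) A (integralClosure A Ω) := by
    constructor
    intro g a b
    apply Subtype.ext
    rw [hact]
    show g ((a • b : integralClosure A Ω) : Ω) = ((a • (g • b) : integralClosure A Ω) : Ω)
    rw [Algebra.smul_def, Algebra.smul_def, MulMemClass.coe_mul, MulMemClass.coe_mul, map_mul,
      hact]
    congr 1
    exact g.commutes (a : F)
  have hinv : Algebra.IsInvariant A (integralClosure A Ω) (Ω ≃ₐ[F] Ω) := by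
    constructor
    intro b hb
    have h1 : (b : Ω) ∈ (⊥ : IntermediateField F Ω) := by
      rw [← InfiniteGalois.fixedField_bot (k := F) (K := Ω)]
      rintro ⟨g, -⟩
      have h2 := hb g
      rw [Subtype.ext_iff, hact] at h2
      exact h2
    rw [IntermediateField.mem_bot] at h1
    obtain ⟨a, ha⟩ := h1
    have h2 : a ∈ A := by
      rw [hA1, ha]
      exact hO1 _ b.2
    exact ⟨⟨a, h2⟩, Subtype.ext ha⟩
  have hp1 := cen_prime A O₁ hO1
  have hp2 := cen_prime A O₂ hO2
  have hlt : ∀ a : F, O₁.valuation (algebraMap F Ω a) < 1 ↔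
      O₂.valuation (algebraMap F Ω a) < 1 := by
    intro a
    rcases eq_or_ne a 0 with rfl | ha
    · simp
    · have h1 : ∀ O : ValuationSubring Ω, O.valuation (algebraMap F Ω a) < 1 ↔
          ¬ O.valuation (algebraMap F Ω a⁻¹) ≤ 1 := by
        intro O
        rw [map_inv₀, map_inv₀, not_le]
        have h2 : 0 < O.valuation (algebraMap F Ω a) := by
          rw [Valuation.pos_iff]
          exact (map_ne_zero _).2 ha
        exact (one_lt_inv₀ h2).symm
      rw [h1, h1, ← hA1, ← hA2]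
  obtain ⟨g, hg⟩ := Algebra.IsInvariant.exists_smul_of_under_eq_of_profinite
    (A := A) (G := (Ω ≃ₐ[F] Ω)) (cen A O₁ hO1) (cen A O₂ hO2) (by
      ext a
      exact hlt (a : F))
  have hcen : ∀ b : Ω, IsIntegral A b → (O₂.valuation b < 1 ↔ O₁.valuation (g.symm b) < 1) := by
    intro b hb
    have h1 : (⟨b, hb⟩ : integralClosure A Ω) ∈ cen A O₂ hO2 ↔
        (⟨b, hb⟩ : integralClosure A Ω) ∈ g • cen A O₁ hO1 := by rw [← hg]
    rw [Ideal.mem_pointwise_smul_iff_inv_smul_mem] at h1
    refine h1.trans ?_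
    show O₁.valuation ((g⁻¹ • (⟨b, hb⟩ : integralClosure A Ω) : integralClosure A Ω) : Ω) < 1 ↔ _
    rw [hact]
    exact Iff.rfl
  -- the valuation of `O₁` transported by `g`
  set w : Valuation Ω O₁.ValueGroup := O₁.valuation.comap (g.symm : Ω →+* Ω) with hw
  have hwx : ∀ x, w x = O₁.valuation (g.symm x) := fun x => rfl
  have hwa : ∀ a : F, w (algebraMap F Ω a) = O₁.valuation (algebraMap F Ω a) := by
    intro a
    rw [hwx, AlgEquiv.commutes]
  have d1 := val_le A w O₂.valuation (fun a ha => (hA1 a).2 (by rw [← hwa]; exact ha))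
    (fun a ha => (hA2 a).1 ha) (fun b hb h => (hcen b hb).1 h)
  have d2 := val_le A O₂.valuation w (fun a ha => (hA2 a).2 ha)
    (fun a ha => by rw [hwa]; exact (hA1 a).1 ha) (fun b hb h => (hcen b hb).2 h)
  refine ⟨g, fun x => ?_⟩
  rw [← ValuationSubring.valuation_le_one_iff, ← ValuationSubring.valuation_le_one_iff]
  have h3 : w (g x) = O₁.valuation x := by
    rw [hwx, AlgEquiv.symm_apply_apply]
  constructor
  · intro h
    exact d1 _ (by rw [h3]; exact h)
  · intro h
    rw [← h3]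
    exact d2 _ h

end Pool.Agent.H67.IX
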