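import Pool.Agent.H15.IX.TC

/-!
# Row GEN of idx_modules: it is enough to treat polynomials in generators
-/

set_option autoImplicit false

open Finset Pool.Agent.H15.IX MvPolynomial

namespace Pool.Agent.H67.IX

universe u

/-- finitely many polynomials have finitely many variables -/
theorem fin_vars {σ R : Type u} [CommRing R] {m : ℕ} (r s : Fin m → MvPolynomial σ R) :
    ∃ (n : ℕ) (φ : Fin n → σ), ∀ i, (∃ r', rename φ r' = r i) ∧ ∃ s', rename φ s' = s i := by
  classical
  set T : Finset σ := univ.biUnion (fun i : Fin m => (r i).vars ∪ (s i).vars) with hT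
  refine ⟨T.card, fun j => (T.equivFin.symm j : σ), ?_⟩
  have key : ∀ p : MvPolynomial σ R, p.vars ⊆ T →
      ∃ p', rename (fun j : Fin T.card => (T.equivFin.symm j : σ)) p' = p := by
    intro p hp
    have h1 : p ∈ MvPolynomial.supported R (T : Set σ) := by
      rw [MvPolynomial.mem_supported]
      exact_mod_cast hp
    rw [MvPolynomial.supported_eq_range_rename] at h1
    obtain ⟨p'', hp''⟩ := h1
    refine ⟨rename (fun x : (T : Set σ) => T.equivFin ⟨x.1, x.2⟩) p'', ?_⟩
    rw [rename_rename, ← hp'']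
    congr 1
    congr 1
    funext x
    simp
  intro i
  constructor
  · apply key
    intro v hv
    exact mem_biUnion.2 ⟨i, mem_univ i, mem_union_left _ hv⟩
  · apply key
    intro v hv
    exact mem_biUnion.2 ⟨i, mem_univ i, mem_union_right _ hv⟩

/-- the polynomial in the new variables -/
noncomputable def Hm {R : Type u} [CommRing R] {m n : ℕ} (d : ℕ) (r s : Fin m → MvPolynomial (Fin n) R)
    (P : MvPolynomial (Fin m) R) : MvPolynomial (Fin n) R :=
  ∑ a ∈ P.support, C (P.coeff a) * ∏ i, (r i ^ a i * s i ^ (d - a i))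

theorem Hm_aeval {R Ω : Type u} [CommRing R] [Field Ω] [Algebra R Ω] {m n : ℕ} (d : ℕ)
    (r s : Fin m → MvPolynomial (Fin n) R) (P : MvPolynomial (Fin m) R)
    (hd : ∀ a ∈ P.support, ∀ i, a i ≤ d) (x : Fin n → Ω) (hx : ∀ i, aeval x (s i) ≠ 0) :
    aeval x (Hm d r s P) =
      aeval (fun i => aeval x (r i) / aeval x (s i)) P * ∏ i, (aeval x (s i)) ^ d := by
  have e : aeval (fun i => aeval x (r i) / aeval x (s i)) P = ∑ a ∈ P.support,
      algebraMap R Ω (P.coeff a) * ∏ i, (aeval x (r i) / aeval x (s i)) ^ a i := by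
    rw [MvPolynomial.aeval_def, MvPolynomial.eval₂_eq']
  unfold Hm
  rw [map_sum, e, Finset.sum_mul]
  apply Finset.sum_congr rfl
  intro a ha
  rw [map_mul, map_prod, MvPolynomial.aeval_C, mul_assoc, ← Finset.prod_mul_distrib]
  congr 1
  apply Finset.prod_congr rfl
  intro i _
  rw [map_mul, map_pow, map_pow, div_pow]
  have h1 : aeval x (s i) ^ d = aeval x (s i) ^ (a i) * aeval x (s i) ^ (d - a i) := by
    rw [← pow_add]
    congr 1
    have := hd a ha i
    omega
  rw [h1]
  have h2 : aeval x (s i) ^ (a i) ≠ 0 := pow_ne_zero _ (hx i)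
  field_simp

theorem pf_GEN : T_GEN.{u} := by
  intro Ω _ O N G h m y hy F hF
  classical
  have hrep : ∀ x : Ω, x ∈ Subfield.closure ((N : Set Ω) ∪ G) → ∃ r s : MvPolynomial G N,
      aeval (Subtype.val : G → Ω) s ≠ 0 ∧
      x = aeval (Subtype.val : G → Ω) r / aeval (Subtype.val : G → Ω) s := by
    intro x hx
    have hx' : x ∈ IntermediateField.adjoin N G := by
      have e : Set.range (algebraMap N Ω) = (N : Set Ω) := by
        ext z
        constructor
        · rintro ⟨w, rfl⟩
          exact w.2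
        · intro hz
          exact ⟨⟨z, hz⟩, rfl⟩
      show x ∈ Subfield.closure (Set.range (algebraMap N Ω) ∪ G)
      rw [e]
      exact hx
    obtain ⟨r, s, hrs⟩ := (IntermediateField.mem_adjoin_iff (F := N) x).1 hx'
    by_cases hs : aeval (Subtype.val : G → Ω) s = 0
    · refine ⟨0, 1, by simp, ?_⟩
      rw [hrs, hs]
      simp
    · exact ⟨r, s, hs, hrs⟩
  choose r s hs hrs using fun i => hrep (y i) (hy i)
  obtain ⟨n, φ, hφ⟩ := fin_vars r s
  choose r' hr' using fun i => (hφ i).1
  choose s' hs' using fun i => (hφ i).2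
  set g : Fin n → Ω := fun j => (φ j : Ω) with hg
  have hgr : ∀ i, aeval g (r' i) = aeval (Subtype.val : G → Ω) (r i) := by
    intro i
    rw [← hr' i, aeval_rename]
    rfl
  have hgs : ∀ i, aeval g (s' i) = aeval (Subtype.val : G → Ω) (s i) := by
    intro i
    rw [← hs' i, aeval_rename]
    rfl
  -- polynomials over `N`
  have hc : ∀ P : MvPolynomial (Fin m) Ω, ∃ P₀ : MvPolynomial (Fin m) N,
      P ∈ F → map (algebraMap N Ω) P₀ = P := by
    intro P
    by_cases hP : P ∈ F
    · refine ⟨∑ a ∈ P.support, monomial a ⟨P.coeff a, hF P hP a⟩, fun _ => ?_⟩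
      rw [map_sum]
      simp only [map_monomial]
      conv_rhs => rw [P.as_sum]
      rfl
    · exact ⟨0, fun h => absurd h hP⟩
  choose c hc using hc
  set d : ℕ := ∑ P ∈ F, (c P).totalDegree with hd
  have hdeg : ∀ P ∈ F, ∀ a ∈ (c P).support, ∀ i, a i ≤ d := by
    intro P hP a ha i
    have h1 := le_totalDegree ha
    have h2 : a i ≤ a.sum fun _ e => e := by
      rw [Finsupp.sum_fintype _ _ (fun _ => rfl)]
      exact Finset.single_le_sum (f := fun i => a i) (fun _ _ => Nat.zero_le _) (mem_univ i)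
    have h3 : (c P).totalDegree ≤ d :=
      Finset.single_le_sum (f := fun P => (c P).totalDegree) (fun _ _ => Nat.zero_le _) hP
    omega
  set F' : Finset (MvPolynomial (Fin n) Ω) :=
    (F.image fun P => map (algebraMap N Ω) (Hm d r' s' (c P))) ∪
      ((univ.image fun i => map (algebraMap N Ω) (s' i)) ∪ {0}) with hF'
  have hev : ∀ (x : Fin n → Ω) (p : MvPolynomial (Fin n) N),
      MvPolynomial.eval x (map (algebraMap N Ω) p) = aeval x p := by
    intro x p
    rw [MvPolynomial.eval_map, MvPolynomial.aeval_def]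
  have hcoef : ∀ P ∈ F', ∀ a, P.coeff a ∈ N := by
    intro P hP a
    rw [hF', mem_union, mem_union, mem_image, mem_image, mem_singleton] at hP
    rcases hP with ⟨Q, -, rfl⟩ | ⟨i, -, rfl⟩ | rfl
    · rw [coeff_map]
      exact Subtype.mem _
    · rw [coeff_map]
      exact Subtype.mem _
    · rw [coeff_zero]
      exact N.zero_mem
  obtain ⟨w, hw, hcmp⟩ := h n g (fun j => (φ j).2) F' hcoef
  have hwN : ∀ p : MvPolynomial (Fin n) N, aeval w p ∈ N := by
    intro p
    have e : w = fun j => algebraMap N Ω ⟨w j, hw j⟩ := rfl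
    have h2 : aeval w p = algebraMap N Ω (aeval (fun j => (⟨w j, hw j⟩ : N)) p) :=
      aeval_algebraMap_apply Ω (fun j => (⟨w j, hw j⟩ : N)) p
    rw [h2]
    exact Subtype.mem _
  have hsg : ∀ i, aeval g (s' i) ≠ 0 := fun i => by
    rw [hgs]
    exact hs i
  have hsw : ∀ i, aeval w (s' i) ≠ 0 := by
    intro i h0
    have h1 := (hcmp (map (algebraMap N Ω) (s' i)) (by
      rw [hF', mem_union, mem_union, mem_image, mem_image]
      exact Or.inr (Or.inl ⟨i, mem_univ i, rfl⟩)) 0 (by
      rw [hF', mem_union, mem_union, mem_singleton]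
      exact Or.inr (Or.inr rfl))).2
    rw [hev, hev, h0] at h1
    simp only [map_zero] at h1
    have h2 := h1 le_rfl
    rw [le_zero_iff, Valuation.zero_iff] at h2
    exact hsg i h2
  refine ⟨fun i => aeval w (r' i) / aeval w (s' i), fun i => N.div_mem (hwN _) (hwN _),
    fun P hP Q hQ => ?_⟩
  have hyg : (fun i => aeval g (r' i) / aeval g (s' i)) = y := by
    funext i
    rw [hgr, hgs]
    exact (hrs i).symm
  -- values at `y` and `z`
  have hPy : ∀ P ∈ F, aeval g (Hm d r' s' (c P)) =
      MvPolynomial.eval y P * ∏ i, (aeval g (s' i)) ^ d := by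
    intro P hP
    rw [Hm_aeval d r' s' (c P) (hdeg P hP) g hsg, hyg]
    congr 1
    conv_rhs => rw [← hc P hP]
    rw [MvPolynomial.eval_map, MvPolynomial.aeval_def]
  have hPz : ∀ P ∈ F, aeval w (Hm d r' s' (c P)) =
      MvPolynomial.eval (fun i => aeval w (r' i) / aeval w (s' i)) P *
        ∏ i, (aeval w (s' i)) ^ d := by
    intro P hP
    rw [Hm_aeval d r' s' (c P) (hdeg P hP) w hsw]
    congr 1
    conv_rhs => rw [← hc P hP]
    rw [MvPolynomial.eval_map, MvPolynomial.aeval_def]
  have hmem : ∀ P ∈ F, map (algebraMap N Ω) (Hm d r' s' (c P)) ∈ F' := by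
    intro P hP
    rw [hF', mem_union, mem_image]
    exact Or.inl ⟨P, hP, rfl⟩
  have h1 := hcmp _ (hmem P hP) _ (hmem Q hQ)
  rw [hev, hev, hev, hev, hPy P hP, hPy Q hQ, hPz P hP, hPz Q hQ, map_mul, map_mul, map_mul,
    map_mul] at h1
  have hD1 : 0 < O.valuation (∏ i, (aeval g (s' i)) ^ d) := by
    rw [Valuation.pos_iff]
    exact Finset.prod_ne_zero_iff.2 fun i _ => pow_ne_zero _ (hsg i)
  have hD2 : 0 < O.valuation (∏ i, (aeval w (s' i)) ^ d) := by
    rw [Valuation.pos_iff]
    exact Finset.prod_ne_zero_iff.2 fun i _ => pow_ne_zero _ (hsw i)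
  rw [mul_le_mul_iff_left₀ hD1, mul_le_mul_iff_left₀ hD2] at h1
  exact h1

end Pool.Agent.H67.IX
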