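import Pool.Agent.H15.IX.TC

/-!
# Row MAX of idx_modules: maximal extension with the value of `t` not divisible by `p`
-/

set_option autoImplicit false

open Finset Pool.Agent.H15.IX

namespace Pool.Agent.H67.IX

universe u

theorem pf_MAX : T_MAX.{u} := by
  intro Ω _ O p t E hE
  obtain ⟨M, hEM, hM⟩ := zorn_le_nonempty₀ {M : Subfield Ω | Gd O p t M} (by
    intro c hc hchain y hy
    refine ⟨sSup c, ?_, fun z hz => le_sSup hz⟩
    intro f hf
    have hne : c.Nonempty := ⟨y, hy⟩
    have hdir : DirectedOn (· ≤ ·) c := hchain.directedOn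
    rw [Subfield.mem_sSup_of_directedOn hne hdir] at hf
    obtain ⟨N, hN, hfN⟩ := hf
    exact hc hN f hfN) E hE
  refine ⟨M, hEM, hM.prop, fun M' hMM' hM' => ?_⟩
  exact le_antisymm (hM.2 hM' hMM') hMM'

end Pool.Agent.H67.IX
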